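import Mathlib

/-!
A covering of the plane by non-overlapping differentiable rectifiable arcs of length at least `1/2`
which is not smooth on a set of positive measure.
-/

open MeasureTheory Topology Filter Set

namespace Pool.Agent.Results.MP_85e89d_gt.NotSmooth

/-- The plane. -/
abbrev Pl := EuclideanSpace ℝ (Fin 2)

/-- `γ` on `I` is a parametrisation of the arc `A`: `I` is a nondegenerate interval and `γ` maps
`I` homeomorphically onto `A`. -/
structure IsParam (A : Set Pl) (I : Set ℝ) (γ : ℝ → Pl) : Prop where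
  ordConnected : I.OrdConnected
  nontrivial : I.Nontrivial
  embedding : IsEmbedding (I.domRestrict γ)
  image_eq : γ '' I = A

/-- A parametrisation which is differentiable (one-sidedly at included endpoints) with nonzero
derivative `γ'`. -/
structure IsRegularParam (A : Set Pl) (I : Set ℝ) (γ γ' : ℝ → Pl) : Prop
    extends IsParam A I γ where
  deriv : ∀ t ∈ I, HasDerivWithinAt γ (γ' t) I t
  ne_zero : ∀ t ∈ I, γ' t ≠ 0

/-- The arc `A` has length `L`. -/
def HasLength (A : Set Pl) (L : ENNReal) : Prop :=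
  ∃ I γ, IsParam A I γ ∧ eVariationOn γ I = L

/-- `v` is a vector spanning the tangent line of the arc `A` at its point `p`. -/
def IsTangentVector (A : Set Pl) (p v : Pl) : Prop :=
  ∃ I γ γ', IsRegularParam A I γ γ' ∧ ∃ t ∈ I, γ t = p ∧ γ' t = v

/-- `e` is an endpoint of the arc `A`: a limit point of one of its two ends. -/
def IsEndpoint (A : Set Pl) (e : Pl) : Prop :=
  ∃ I γ, IsParam A I γ ∧ (MapClusterPt e atTop (I.domRestrict γ) ∨ MapClusterPt e atBot (I.domRestrict γ))

/-- `F` is a covering of the plane by non-overlapping differentiable rectifiable arcs of length at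
least `δ`. -/
structure IsCovering (F : Set (Set Pl)) (δ : ℝ) : Prop where
  disjoint : ∀ A ∈ F, ∀ B ∈ F, A ≠ B → Disjoint A B
  union : ⋃₀ F = univ
  differentiable : ∀ A ∈ F, ∃ I γ γ', IsRegularParam A I γ γ'
  length : ∀ A ∈ F, ∃ L, HasLength A L ∧ L ≠ ⊤ ∧ ENNReal.ofReal δ ≤ L

/-- `F` is smooth at `x`. -/
def SmoothAt (F : Set (Set Pl)) (x : Pl) : Prop :=
  ∀ ε : ℝ, 0 < ε → ∃ N : Set Pl, IsOpen N ∧ x ∈ N ∧ (∀ A ∈ F, ∀ e, IsEndpoint A e → e ∉ N) ∧
    ∀ A ∈ F, ∀ B ∈ F, ∀ p ∈ N, ∀ q ∈ N, ∀ v w, IsTangentVector A p v → IsTangentVector B q w →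
      InnerProductGeometry.angle v w < ε ∨ InnerProductGeometry.angle v (-w) < ε

/-! ### Gaps of a closed set -/

/-- the left end of the gap of `K` containing `x` -/
noncomputable def lo (K : Set ℝ) (x : ℝ) : ℝ := sSup (K ∩ Iic x)
/-- the right end of the gap of `K` containing `x` -/
noncomputable def hi (K : Set ℝ) (x : ℝ) : ℝ := sInf (K ∩ Ici x)

section gaps

variable {K : Set ℝ} (hK : IsClosed K) (h1 : ∀ x, (K ∩ Iic x).Nonempty)
  (h2 : ∀ x, (K ∩ Ici x).Nonempty)

include hK h1 in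
theorem lo_mem (x : ℝ) : lo K x ∈ K ∩ Iic x :=
  (hK.inter isClosed_Iic).csSup_mem (h1 x) ⟨x, fun _ hz => hz.2⟩

include hK h2 in
theorem hi_mem (x : ℝ) : hi K x ∈ K ∩ Ici x :=
  (hK.inter isClosed_Ici).csInf_mem (h2 x) ⟨x, fun _ hz => hz.2⟩

theorem le_lo {x z : ℝ} (hz : z ∈ K) (hzx : z ≤ x) : z ≤ lo K x :=
  le_csSup ⟨x, fun _ hz => hz.2⟩ ⟨hz, hzx⟩

theorem hi_le {x z : ℝ} (hz : z ∈ K) (hzx : x ≤ z) : hi K x ≤ z :=
  csInf_le ⟨x, fun _ hz => hz.2⟩ ⟨hz, hzx⟩

theorem gap_notMem {x z : ℝ} (ha : lo K x < z) (hb : z < hi K x) : z ∉ K := by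
  intro hz
  rcases le_total z x with h | h
  · exact absurd (le_lo hz h) (not_le.mpr ha)
  · exact absurd (hi_le hz h) (not_le.mpr hb)

include hK h1 in
theorem lo_eq_self {x : ℝ} (hx : x ∈ K) : lo K x = x :=
  le_antisymm (lo_mem hK h1 x).2 (le_lo hx le_rfl)

include hK h2 in
theorem hi_eq_self {x : ℝ} (hx : x ∈ K) : hi K x = x :=
  le_antisymm (hi_le hx le_rfl) (hi_mem hK h2 x).2

include hK h1 in
theorem lo_congr {x z : ℝ} (ha : lo K x < z) (hb : z < hi K x) : lo K z = lo K x := by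
  apply le_antisymm
  · by_contra hlt
    push Not at hlt
    exact gap_notMem hlt (lt_of_le_of_lt (lo_mem hK h1 z).2 hb) (lo_mem hK h1 z).1
  · exact le_lo (lo_mem hK h1 x).1 ha.le

include hK h2 in
theorem hi_congr {x z : ℝ} (ha : lo K x < z) (hb : z < hi K x) : hi K z = hi K x := by
  apply le_antisymm
  · exact hi_le (hi_mem hK h2 x).1 hb.le
  · by_contra hlt
    push Not at hlt
    exact gap_notMem (lt_of_lt_of_le ha (hi_mem hK h2 z).2) hlt (hi_mem hK h2 z).1

end gaps

/-- the horizontal displacement inside a gap `(a, b)` -/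
noncomputable def g (a b c s : ℝ) : ℝ := s + (s - a) * (b - s) / (2 * (b - a)) * c

theorem g_lt {a b c s t : ℝ} (hab : a < b) (hc : |c| ≤ 1) (hs : a ≤ s) (hst : s < t)
    (ht : t ≤ b) : g a b c s < g a b c t := by
  have hba : 0 < b - a := sub_pos.mpr hab
  have e : g a b c t - g a b c s = (t - s) * (1 + (a + b - s - t) / (2 * (b - a)) * c) := by
    simp only [g]; field_simp; ring
  have h1 : |(a + b - s - t) / (2 * (b - a)) * c| ≤ 1 / 2 := by
    rw [abs_mul, abs_div, abs_of_pos (by positivity : (0 : ℝ) < 2 * (b - a))]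
    have h2 : |a + b - s - t| ≤ b - a := by rw [abs_le]; constructor <;> linarith
    have h3 : |a + b - s - t| / (2 * (b - a)) ≤ 1 / 2 := by
      rw [div_le_iff₀ (by positivity)]; linarith
    calc |a + b - s - t| / (2 * (b - a)) * |c| ≤ 1 / 2 * 1 :=
          mul_le_mul h3 hc (abs_nonneg _) (by norm_num)
      _ = 1 / 2 := by ring
  have h4 := (abs_le.mp h1).1
  have : 0 < g a b c t - g a b c s := by
    rw [e]
    apply mul_pos (by linarith) (by linarith)
  linarith

theorem g_left (a b c : ℝ) : g a b c a = a := by simp [g]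
theorem g_right (a b c : ℝ) : g a b c b = b := by simp [g]

/-- the abscissa at height `y` of the curve with label `s` -/
noncomputable def X (K : Set ℝ) (s y : ℝ) : ℝ :=
  g (lo K s) (hi K s) (Real.sin (8 * y / (hi K s - lo K s))) s

section X

variable {K : Set ℝ} (hK : IsClosed K) (h1 : ∀ x, (K ∩ Iic x).Nonempty)
  (h2 : ∀ x, (K ∩ Ici x).Nonempty)

include hK h1 in
theorem X_of_mem {s : ℝ} (hs : s ∈ K) (y : ℝ) : X K s y = s := by
  simp [X, g, lo_eq_self hK h1 hs]

include hK h1 h2 in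
theorem lo_lt_hi {s : ℝ} (hs : s ∉ K) : lo K s < s ∧ s < hi K s := by
  constructor
  · exact lt_of_le_of_ne (lo_mem hK h1 s).2 (fun h => hs (h ▸ (lo_mem hK h1 s).1))
  · exact lt_of_le_of_ne (hi_mem hK h2 s).2 (fun h => hs (h ▸ (hi_mem hK h2 s).1))

include hK h1 h2 in
theorem X_mem_gap {s : ℝ} (hs : s ∉ K) (y : ℝ) : lo K s < X K s y ∧ X K s y < hi K s := by
  obtain ⟨ha, hb⟩ := lo_lt_hi hK h1 h2 hs
  have hc := Real.abs_sin_le_one (8 * y / (hi K s - lo K s))
  constructor
  · have := g_lt (ha.trans hb) hc le_rfl ha hb.le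
    rwa [g_left] at this
  · have := g_lt (ha.trans hb) hc ha.le hb le_rfl
    rwa [g_right] at this

include hK h1 h2 in
theorem X_strictMono (y : ℝ) : StrictMono (fun s => X K s y) := by
  intro s t hst
  simp only
  by_cases hs : s ∈ K
  · rw [X_of_mem hK h1 hs]
    by_cases ht : t ∈ K
    · rwa [X_of_mem hK h1 ht]
    · exact lt_of_le_of_lt (le_lo hs hst.le) (X_mem_gap hK h1 h2 ht y).1
  · obtain ⟨ha, hb⟩ := lo_lt_hi hK h1 h2 hs
    rcases lt_or_ge t (hi K s) with h | h
    · have e1 := lo_congr hK h1 (ha.trans hst) h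
      have e2 := hi_congr hK h2 (ha.trans hst) h
      simp only [X, e1, e2]
      exact g_lt (ha.trans hb) (Real.abs_sin_le_one _) ha.le hst h.le
    · refine lt_of_lt_of_le (X_mem_gap hK h1 h2 hs y).2 ?_
      by_cases ht : t ∈ K
      · rwa [X_of_mem hK h1 ht]
      · exact (le_lo (hi_mem hK h2 s).1 h).trans (X_mem_gap hK h1 h2 ht y).1.le

include hK h1 h2 in
theorem X_surj (y x : ℝ) : ∃ s, X K s y = x := by
  by_cases hx : x ∈ K
  · exact ⟨x, X_of_mem hK h1 hx y⟩
  · obtain ⟨ha, hb⟩ := lo_lt_hi hK h1 h2 hx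
    set a := lo K x
    set b := hi K x
    set c := Real.sin (8 * y / (b - a))
    have hcont : ContinuousOn (g a b c) (Icc a b) := by
      unfold g; fun_prop
    have hivt := intermediate_value_Icc (ha.trans hb).le hcont
    rw [g_left, g_right] at hivt
    obtain ⟨s, hs, hsx⟩ := hivt ⟨ha.le, hb.le⟩
    have hs1 : a < s := lt_of_le_of_ne hs.1 (fun h => by
      rw [← h, g_left] at hsx; exact ha.ne hsx)
    have hs2 : s < b := lt_of_le_of_ne hs.2 (fun h => by
      rw [h, g_right] at hsx; exact hb.ne' hsx)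
    refine ⟨s, ?_⟩
    simp only [X, lo_congr hK h1 hs1 hs2, hi_congr hK h2 hs1 hs2]
    exact hsx

end X

/-- the first basis vector -/
noncomputable def e0 : Pl := EuclideanSpace.single 0 1
/-- the second basis vector -/
noncomputable def e1 : Pl := EuclideanSpace.single 1 1

/-- the curve with label `s` -/
noncomputable def cur (K : Set ℝ) (s : ℝ) (y : ℝ) : Pl := X K s y • e0 + y • e1

/-- the velocity of the curve with label `s` -/
noncomputable def cur' (K : Set ℝ) (s : ℝ) (y : ℝ) : Pl :=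
  (4 * ((s - lo K s) * (hi K s - s)) / (hi K s - lo K s) ^ 2 *
    Real.cos (8 * y / (hi K s - lo K s))) • e0 + (1 : ℝ) • e1

theorem comb_apply (a b : ℝ) : (a • e0 + b • e1 : Pl) 0 = a ∧ (a • e0 + b • e1 : Pl) 1 = b := by
  constructor <;> simp [e0, e1]

theorem cur_hasDerivAt (K : Set ℝ) (s y : ℝ) : HasDerivAt (cur K s) (cur' K s y) y := by
  have hX : HasDerivAt (fun y => X K s y) (4 * ((s - lo K s) * (hi K s - s)) /
      (hi K s - lo K s) ^ 2 * Real.cos (8 * y / (hi K s - lo K s))) y := by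
    have h1 : HasDerivAt (fun y : ℝ => 8 * y / (hi K s - lo K s)) (8 * 1 / (hi K s - lo K s)) y :=
      ((hasDerivAt_id y).const_mul 8).div_const _
    have h2 := ((h1.sin).const_mul ((s - lo K s) * (hi K s - s) / (2 * (hi K s - lo K s)))).const_add s
    have e : (s - lo K s) * (hi K s - s) / (2 * (hi K s - lo K s)) *
        (Real.cos (8 * y / (hi K s - lo K s)) * (8 * 1 / (hi K s - lo K s))) =
        4 * ((s - lo K s) * (hi K s - s)) / (hi K s - lo K s) ^ 2 *
          Real.cos (8 * y / (hi K s - lo K s)) := by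
      by_cases h : hi K s - lo K s = 0
      · simp [h]
      · field_simp
        ring
    rw [← e]
    exact h2
  exact (hX.smul_const e0).add ((hasDerivAt_id y).smul_const e1)

/-- the arcs of the covering -/
noncomputable def arc (K : Set ℝ) (s : ℝ) (n : ℤ) : Set Pl := cur K s '' Ico (n : ℝ) (n + 1)

theorem arc_param (K : Set ℝ) (s : ℝ) (n : ℤ) :
    IsRegularParam (arc K s n) (Ico (n : ℝ) (n + 1)) (cur K s) (cur' K s) where
  ordConnected := ordConnected_Ico
  nontrivial := ⟨n, ⟨le_rfl, by linarith⟩, n + 1 / 2, ⟨by linarith, by linarith⟩, by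
    intro h; linarith⟩
  embedding := by
    have hc : Continuous (cur K s) := by
      rw [continuous_iff_continuousAt]
      exact fun y => (cur_hasDerivAt K s y).continuousAt
    have hg : Continuous (fun p : Pl => p 1) := by fun_prop
    have h2 : (fun p : Pl => p 1) ∘ (Ico (n : ℝ) (n + 1)).domRestrict (cur K s) = Subtype.val := by
      funext y
      exact (comb_apply _ _).2
    have h3 : IsEmbedding ((fun p : Pl => p 1) ∘ (Ico (n : ℝ) (n + 1)).domRestrict (cur K s)) := by
      rw [h2]; exact IsEmbedding.subtypeVal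
    exact IsEmbedding.of_comp (hc.comp continuous_subtype_val) hg h3
  image_eq := rfl
  deriv := fun t _ => (cur_hasDerivAt K s t).hasDerivWithinAt
  ne_zero := by
    intro t _ h
    have := congrArg (fun p : Pl => p 1) h
    simp only [cur'] at this
    rw [(comb_apply _ _).2] at this
    simp at this

theorem dist_le (p q : Pl) : dist p q ≤ |p 0 - q 0| + |p 1 - q 1| := by
  rw [EuclideanSpace.dist_eq, Fin.sum_univ_two, Real.dist_eq, Real.dist_eq]
  apply Real.sqrt_le_iff.mpr
  constructor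
  · positivity
  · nlinarith [abs_nonneg (p 0 - q 0), abs_nonneg (p 1 - q 1)]

theorem le_dist (p q : Pl) (i : Fin 2) : |p i - q i| ≤ dist p q := by
  rw [EuclideanSpace.dist_eq]
  apply Real.le_sqrt_of_sq_le
  rw [Fin.sum_univ_two, Real.dist_eq, Real.dist_eq]
  fin_cases i
  · simp only [Fin.zero_eta, Fin.isValue]; nlinarith [sq_nonneg |p 1 - q 1|]
  · simp only [Fin.mk_one, Fin.isValue]; nlinarith [sq_nonneg |p 0 - q 0|]

/-- The abscissa stays in the closed gap and the speed is bounded. -/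
theorem speed {K : Set ℝ} (hK : IsClosed K) (h1 : ∀ x, (K ∩ Iic x).Nonempty)
    (h2 : ∀ x, (K ∩ Ici x).Nonempty) (s y : ℝ) : ‖cur' K s y‖ ≤ 2 := by
  have ha := (lo_mem hK h1 s).2
  have hb := (hi_mem hK h2 s).2
  simp only [mem_Iic, mem_Ici] at ha hb
  have h3 : |4 * ((s - lo K s) * (hi K s - s)) / (hi K s - lo K s) ^ 2| ≤ 1 := by
    have h0 : 0 ≤ (s - lo K s) * (hi K s - s) := mul_nonneg (by linarith) (by linarith)
    rw [abs_of_nonneg (by positivity)]
    apply div_le_one_of_le₀ _ (by positivity)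
    nlinarith [sq_nonneg ((s - lo K s) - (hi K s - s))]
  have h4 : |4 * ((s - lo K s) * (hi K s - s)) / (hi K s - lo K s) ^ 2 *
      Real.cos (8 * y / (hi K s - lo K s))| ≤ 1 := by
    rw [abs_mul]
    exact mul_le_one₀ h3 (abs_nonneg _) (Real.abs_cos_le_one _)
  calc ‖cur' K s y‖ ≤ dist (cur' K s y) 0 := by rw [dist_zero_right]
    _ ≤ |(cur' K s y) 0 - (0 : Pl) 0| + |(cur' K s y) 1 - (0 : Pl) 1| := dist_le _ _
    _ ≤ 1 + 1 := by
        simp only [cur', (comb_apply _ _).1, (comb_apply _ _).2, PiLp.zero_apply, sub_zero, abs_one]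
        gcongr
    _ = 2 := by norm_num

theorem arc_length {K : Set ℝ} (hK : IsClosed K) (h1 : ∀ x, (K ∩ Iic x).Nonempty)
    (h2 : ∀ x, (K ∩ Ici x).Nonempty) (s : ℝ) (n : ℤ) :
    ∃ L, HasLength (arc K s n) L ∧ L ≠ ⊤ ∧ ENNReal.ofReal (1 / 2) ≤ L := by
  refine ⟨_, ⟨_, _, (arc_param K s n).toIsParam, rfl⟩, ?_, ?_⟩
  · have hL : LipschitzWith 2 (cur K s) := by
      apply lipschitzWith_of_nnnorm_deriv_le (fun y => (cur_hasDerivAt K s y).differentiableAt)
      intro y
      rw [(cur_hasDerivAt K s y).deriv]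
      exact_mod_cast speed hK h1 h2 s y
    have h3 := (hL.lipschitzOnWith (s := univ)).comp_eVariationOn_le (g := id)
      (s := Ico (n : ℝ) (n + 1)) (mapsTo_univ _ _)
    have h4 : BoundedVariationOn (id : ℝ → ℝ) (Ico (n : ℝ) (n + 1)) := by
      apply MonotoneOn.boundedVariationOn (C := |(n : ℝ)| + 1) (monotone_id.monotoneOn _)
      intro x hx
      simp only [id]
      rw [abs_le]
      constructor
      · linarith [neg_abs_le (n : ℝ), hx.1]
      · linarith [le_abs_self (n : ℝ), hx.2]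
    exact ne_top_of_le_ne_top (ENNReal.mul_ne_top (by simp) h4) h3
  · have h3 : edist (cur K s n) (cur K s (n + 1 / 2)) ≤ eVariationOn (cur K s) (Ico (n : ℝ) (n + 1)) :=
      eVariationOn.edist_le _ ⟨le_rfl, by linarith⟩ ⟨by linarith, by linarith⟩
    refine le_trans ?_ h3
    rw [edist_dist]
    apply ENNReal.ofReal_le_ofReal
    have := le_dist (cur K s n) (cur K s (n + 1 / 2)) 1
    simp only [cur, (comb_apply _ _).2] at this
    rw [show (n : ℝ) - (n + 1 / 2) = -(1 / 2) by ring, abs_neg,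
      abs_of_pos (by norm_num : (0 : ℝ) < 1 / 2)] at this
    exact this

/-- The covering. -/
def fam (K : Set ℝ) : Set (Set Pl) := {A | ∃ s n, A = arc K s n}

theorem fam_covering {K : Set ℝ} (hK : IsClosed K) (h1 : ∀ x, (K ∩ Iic x).Nonempty)
    (h2 : ∀ x, (K ∩ Ici x).Nonempty) : IsCovering (fam K) (1 / 2) where
  disjoint := by
    rintro _ ⟨s, n, rfl⟩ _ ⟨t, m, rfl⟩ hne
    rw [Set.disjoint_left]
    rintro _ ⟨y, hy, rfl⟩ ⟨z, hz, he⟩
    have e1 : z = y := by
      have := congrArg (fun p : Pl => p 1) he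
      simpa only [cur, (comb_apply _ _).2] using this
    subst e1
    have e2 : X K t z = X K s z := by
      have := congrArg (fun p : Pl => p 0) he
      simpa only [cur, (comb_apply _ _).1] using this
    have e3 := (X_strictMono hK h1 h2 z).injective e2
    subst e3
    have e4 : n = ⌊z⌋ := (Int.floor_eq_iff.mpr ⟨hy.1, hy.2⟩).symm
    have e5 : m = ⌊z⌋ := (Int.floor_eq_iff.mpr ⟨hz.1, hz.2⟩).symm
    exact hne (by rw [e4, e5])
  union := by
    rw [eq_univ_iff_forall]
    intro p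
    obtain ⟨s, hs⟩ := X_surj hK h1 h2 (p 1) (p 0)
    refine ⟨arc K s ⌊p 1⌋, ⟨s, ⌊p 1⌋, rfl⟩, p 1, ⟨Int.floor_le _, Int.lt_floor_add_one _⟩, ?_⟩
    ext i
    fin_cases i
    · exact ((comb_apply _ _).1).trans hs
    · exact (comb_apply _ _).2
  differentiable := by
    rintro _ ⟨s, n, rfl⟩
    exact ⟨_, _, _, arc_param K s n⟩
  length := by
    rintro _ ⟨s, n, rfl⟩
    exact arc_length hK h1 h2 s n

theorem angle_pm : InnerProductGeometry.angle ((1 : ℝ) • e0 + (1 : ℝ) • e1)
    ((-1 : ℝ) • e0 + (1 : ℝ) • e1) = Real.pi / 2 := by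
  rw [← InnerProductGeometry.inner_eq_zero_iff_angle_eq_pi_div_two, PiLp.inner_apply,
    Fin.sum_univ_two]
  simp only [(comb_apply _ _).1, (comb_apply _ _).2]
  simp

theorem angle_pm' : InnerProductGeometry.angle ((1 : ℝ) • e0 + (1 : ℝ) • e1)
    (-((-1 : ℝ) • e0 + (1 : ℝ) • e1)) = Real.pi / 2 := by
  rw [InnerProductGeometry.angle_neg_right, angle_pm]; ring

/-- The covering is not smooth above the accumulation points of `K`. -/
theorem not_smooth {K : Set ℝ} (hK : IsClosed K) (h1 : ∀ x, (K ∩ Iic x).Nonempty)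
    (h2 : ∀ x, (K ∩ Ici x).Nonempty) (hdense : ∀ a b : ℝ, a < b → ∃ u, a < u ∧ u < b ∧ u ∉ K)
    (p : Pl) (hp : p 0 ∈ K) (hacc : ∀ η : ℝ, 0 < η → ∃ z ∈ K, z ≠ p 0 ∧ |z - p 0| < η) :
    ¬ SmoothAt (fam K) p := by
  intro hsm
  obtain ⟨N, hN, hpN, -, hang⟩ := hsm 1 one_pos
  obtain ⟨r, hr, hball⟩ := Metric.isOpen_iff.mp hN p hpN
  obtain ⟨z, hzK, hzne, hz⟩ := hacc (r / 3) (by positivity)
  -- two points of `K` close to `p 0`
  obtain ⟨k1, k2, hk1, hk2, hk12, hkd1, hkd2⟩ : ∃ k1 k2, k1 ∈ K ∧ k2 ∈ K ∧ k1 < k2 ∧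
      p 0 - r / 3 < k1 ∧ k2 < k1 + r / 3 ∧ k2 < p 0 + r / 3 := by
    rw [abs_lt] at hz
    rcases lt_or_gt_of_ne hzne with h | h
    · exact ⟨z, p 0, hzK, hp, h, by linarith, by linarith, by linarith⟩
    · exact ⟨p 0, z, hp, hzK, h, by linarith, by linarith, by linarith⟩
  obtain ⟨u, hu1, hu2, huK⟩ := hdense k1 k2 hk12
  obtain ⟨hlu, huh⟩ := lo_lt_hi hK h1 h2 huK
  have hl1 : k1 ≤ lo K u := le_lo hk1 hu1.le
  have hh1 : hi K u ≤ k2 := hi_le hk2 hu2.le
  set a := lo K u with ha
  set b := hi K u with hb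
  set s : ℝ := (a + b) / 2 with hs
  have hsa : a < s := by rw [hs]; linarith
  have hsb : s < b := by rw [hs]; linarith
  have hlos : lo K s = a := lo_congr hK h1 hsa hsb
  have hhis : hi K s = b := hi_congr hK h2 hsa hsb
  have hl : 0 < b - a := by linarith
  have hl3 : b - a < r / 3 := by linarith
  -- the two heights
  set k : ℤ := ⌈8 * p 1 / ((b - a) * (2 * Real.pi))⌉ with hk
  set y1 : ℝ := (b - a) * (2 * Real.pi * k) / 8 with hy1
  set y2 : ℝ := (b - a) * (2 * Real.pi * k + Real.pi) / 8 with hy2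
  have hpi := Real.pi_pos
  have hpi4 := Real.pi_lt_d2
  have hk1' : 8 * p 1 / ((b - a) * (2 * Real.pi)) ≤ k := Int.le_ceil _
  have hk2' : (k : ℝ) < 8 * p 1 / ((b - a) * (2 * Real.pi)) + 1 := Int.ceil_lt_add_one _
  rw [div_le_iff₀ (by positivity)] at hk1'
  have hk3' : (k : ℝ) * ((b - a) * (2 * Real.pi)) < 8 * p 1 + (b - a) * (2 * Real.pi) := by
    have h0 : (0 : ℝ) < (b - a) * (2 * Real.pi) := by positivity
    have := mul_lt_mul_of_pos_right hk2' h0
    rw [add_mul, div_mul_cancel₀ _ h0.ne', one_mul] at this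
    exact this
  have hy1a : p 1 ≤ y1 := by rw [hy1]; linarith
  have hy1b : y1 < p 1 + 2 * (b - a) := by rw [hy1]; nlinarith
  have hy2a : p 1 ≤ y2 := by rw [hy2]; nlinarith
  have hy2b : y2 < p 1 + 2 * (b - a) := by rw [hy2]; nlinarith
  have ht1 : 8 * y1 / (b - a) = k * (2 * Real.pi) := by rw [hy1]; field_simp
  have ht2 : 8 * y2 / (b - a) = k * (2 * Real.pi) + Real.pi := by rw [hy2]; field_simp
  have hc1 : Real.cos (8 * y1 / (b - a)) = 1 := by rw [ht1]; exact Real.cos_int_mul_two_pi k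
  have hs1 : Real.sin (8 * y1 / (b - a)) = 0 := by
    rw [ht1]
    have := Real.sin_int_mul_pi (2 * k)
    push_cast at this
    rw [← this]; congr 1; ring
  have hc2 : Real.cos (8 * y2 / (b - a)) = -1 := by
    rw [ht2, Real.cos_add_pi, Real.cos_int_mul_two_pi]
  have hs2 : Real.sin (8 * y2 / (b - a)) = 0 := by
    rw [ht2, Real.sin_add_pi, ← ht1, hs1, neg_zero]
  have hX1 : X K s y1 = s := by simp only [X, g, hlos, hhis, hs1]; ring
  have hX2 : X K s y2 = s := by simp only [X, g, hlos, hhis, hs2]; ring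
  have hv : 4 * ((s - a) * (b - s)) / (b - a) ^ 2 = 1 := by
    rw [hs]; field_simp; ring
  have hv1 : cur' K s y1 = (1 : ℝ) • e0 + (1 : ℝ) • e1 := by
    simp only [cur', hlos, hhis, hc1, hv]; norm_num
  have hv2 : cur' K s y2 = (-1 : ℝ) • e0 + (1 : ℝ) • e1 := by
    simp only [cur', hlos, hhis, hc2, hv]; norm_num
  have hin : ∀ y, X K s y = s → p 1 ≤ y → y < p 1 + 2 * (b - a) → cur K s y ∈ N := by
    intro y hXy hya hyb
    apply hball
    rw [Metric.mem_ball]
    refine lt_of_le_of_lt (dist_le _ _) ?_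
    simp only [cur, (comb_apply _ _).1, (comb_apply _ _).2, hXy]
    have e1 : |s - p 0| < r / 3 := by rw [abs_lt]; constructor <;> linarith
    have e2 : |y - p 1| ≤ 2 * (b - a) := by rw [abs_le]; constructor <;> linarith
    linarith
  have htan : ∀ y, IsTangentVector (arc K s ⌊y⌋) (cur K s y) (cur' K s y) := fun y =>
    ⟨_, _, _, arc_param K s ⌊y⌋, y, ⟨Int.floor_le _, Int.lt_floor_add_one _⟩, rfl, rfl⟩
  have hfin := hang (arc K s ⌊y1⌋) ⟨_, _, rfl⟩ (arc K s ⌊y2⌋) ⟨_, _, rfl⟩ _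
    (hin y1 hX1 hy1a hy1b) _ (hin y2 hX2 hy2a hy2b) _ _ (htan y1) (htan y2)
  rw [hv1, hv2, angle_pm, angle_pm'] at hfin
  have hpi3 := Real.pi_gt_three
  rcases hfin with h | h <;> linarith

/-- There are `δ > 0` and a covering of the plane by pairwise disjoint differentiable rectifiable
arcs, each of length at least `δ`, which is not smooth at any point of a measurable set of positive
measure. -/
theorem result : ∃ δ : ℝ, 0 < δ ∧ ∃ F : Set (Set Pl), IsCovering F δ ∧
    ∃ E : Set Pl, MeasurableSet E ∧ 0 < volume E ∧ ∀ x ∈ E, ¬ SmoothAt F x := by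
  -- an open dense set of small measure
  have hQ : volume (range (fun q : ℚ => (q : ℝ))) < 1 := by
    rw [(countable_range _).measure_zero]; exact one_pos
  obtain ⟨U, hQU, hUo, hU1⟩ := Set.exists_isOpen_lt_of_lt _ _ hQ
  set K : Set ℝ := Uᶜ with hKdef
  have hK : IsClosed K := hUo.isClosed_compl
  have hint : ∀ x : ℝ, (K ∩ Icc x (x + 1)).Nonempty := by
    intro x
    by_contra hne
    rw [not_nonempty_iff_eq_empty] at hne
    have hsub : Icc x (x + 1) ⊆ U := by
      intro z hz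
      by_contra hzU
      have : z ∈ K ∩ Icc x (x + 1) := ⟨hzU, hz⟩
      rw [hne] at this
      exact this
    have := measure_mono (μ := volume) hsub
    rw [Real.volume_Icc, show x + 1 - x = (1 : ℝ) by ring, ENNReal.ofReal_one] at this
    exact absurd hU1 (not_lt.mpr this)
  have h1 : ∀ x, (K ∩ Iic x).Nonempty := by
    intro x
    obtain ⟨z, hz1, hz2⟩ := hint (x - 1)
    exact ⟨z, hz1, by simpa using hz2.2⟩
  have h2 : ∀ x, (K ∩ Ici x).Nonempty := by
    intro x
    obtain ⟨z, hz1, hz2⟩ := hint x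
    exact ⟨z, hz1, hz2.1⟩
  have hdense : ∀ a b : ℝ, a < b → ∃ u, a < u ∧ u < b ∧ u ∉ K := by
    intro a b hab
    obtain ⟨q, hq1, hq2⟩ := exists_rat_btwn hab
    exact ⟨q, hq1, hq2, fun h => h (hQU ⟨q, rfl⟩)⟩
  -- the isolated points of `K`
  set C : Set ℝ := ⋃ q : ℚ × ℚ, {x | x ∈ K ∧ (q.1 : ℝ) < x ∧ x < q.2 ∧
    ∀ z ∈ K, (q.1 : ℝ) < z → z < q.2 → z = x} with hC
  have hCc : C.Countable := by
    apply countable_iUnion
    intro q
    apply Set.Subsingleton.countable
    rintro x ⟨hx1, hx2, hx3, hx4⟩ y ⟨hy1, hy2, hy3, hy4⟩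
    exact hy4 x hx1 hx2 hx3
  have hacc : ∀ x ∈ K, x ∉ C → ∀ η : ℝ, 0 < η → ∃ z ∈ K, z ≠ x ∧ |z - x| < η := by
    intro x hx hxC η hη
    by_contra hcon
    push Not at hcon
    apply hxC
    obtain ⟨q1, hq1, hq1'⟩ := exists_rat_btwn (sub_lt_self x hη)
    obtain ⟨q2, hq2, hq2'⟩ := exists_rat_btwn (lt_add_of_pos_right x hη)
    rw [hC, mem_iUnion]
    refine ⟨(q1, q2), hx, hq1', hq2, ?_⟩
    intro z hz hz1 hz2
    by_contra hne
    have h3 := hcon z hz hne
    have h4 : |z - x| < η := by rw [abs_lt]; constructor <;> linarith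
    linarith
  refine ⟨1 / 2, by norm_num, fam K, fam_covering hK h1 h2,
    {p : Pl | p 0 ∈ K \ C}, ?_, ?_, ?_⟩
  · have hm : MeasurableSet (K \ C) := hK.measurableSet.diff hCc.measurableSet
    have hc : Continuous (fun p : Pl => p 0) := by fun_prop
    exact hc.measurable hm
  · have hm : MeasurableSet (K \ C) := hK.measurableSet.diff hCc.measurableSet
    have hvol : 0 < volume (K \ C) := by
      rw [measure_sdiff_null (hCc.measure_zero _), pos_iff_ne_zero]
      intro h0
      have h3 : volume (univ : Set ℝ) ≤ volume U + volume K := by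
        rw [← union_compl_self U]; exact measure_union_le _ _
      rw [h0, add_zero, Real.volume_univ] at h3
      exact absurd (hU1.trans ENNReal.one_lt_top) (not_lt.mpr h3)
    have hset : {p : Pl | p 0 ∈ K \ C} = (@WithLp.ofLp 2 (Fin 2 → ℝ)) ⁻¹'
        (Set.pi univ (fun i : Fin 2 => if i = 0 then K \ C else univ)) := by
      ext p
      simp [Set.mem_pi]
    have hms : MeasurableSet (Set.pi univ (fun i : Fin 2 => if i = 0 then K \ C else univ)) := by
      apply MeasurableSet.univ_pi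
      intro i
      split_ifs
      · exact hm
      · exact MeasurableSet.univ
    rw [hset, (PiLp.volume_preserving_ofLp (Fin 2)).measure_preimage hms.nullMeasurableSet,
      volume_pi_pi, Fin.prod_univ_two]
    simp only [if_true, Fin.isValue, one_ne_zero, if_false, Real.volume_univ]
    exact ENNReal.mul_pos hvol.ne' ENNReal.top_ne_zero
  · intro x hx
    exact not_smooth hK h1 h2 hdense x hx.1 (hacc _ hx.1 hx.2)

end Pool.Agent.Results.MP_85e89d_gt.NotSmooth
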